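import Mathlib
import Pool.Agent.H538R3.Ditor

set_option autoImplicit false

open Set Cardinal Order

namespace Pool.Agent.Results.MP_537c7a_lc.ChangNegative

/-- A join-semilattice has breadth at most `2`: every nonempty finite subset `X` has a nonempty
subset `Y` with at most two elements and with the same join. -/
def BreadthAtMostTwo (L : Type) [SemilatticeSup L] : Prop :=
  ∀ (X : Finset L) (hX : X.Nonempty), ∃ (Y : Finset L) (hY : Y.Nonempty),
    Y ⊆ X ∧ Y.card ≤ 2 ∧ Y.sup' hY id = X.sup' hX id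

/-- Chang's conjecture `(ℵ_{ω+1}, ℵ_ω) ↠ (ℵ_{k+1}, ℵ_k)`: for every set `A` of size `ℵ_{ω+1}`,
every `U ⊆ A` of size `ℵ_ω` and all countably many finitary functions `F n` on `A` there is
`X ⊆ A` closed under all `F n` with `|X| = ℵ_{k+1}` and `|X ∩ U| = ℵ_k`. -/
def ChangConjecture (k : ℕ) : Prop :=
  ∀ (A : Type) (U : Set A) (F : ℕ → List A → A),
    #A = ℵ_ (Ordinal.omega0 + 1) → #U = ℵ_ Ordinal.omega0 →
    ∃ X : Set A, #X = ℵ_ ((k + 1 : ℕ) : Ordinal) ∧ #(X ∩ U : Set A) = ℵ_ (k : Ordinal) ∧
      ∀ (n : ℕ) (l : List A), (∀ x ∈ l, x ∈ X) → F n l ∈ X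

/-- The principle `ADS` at `ℵ_ω` (almost disjoint sequence): there are functions
`f_i ∈ ∏_n ω_n` (`i < ω_{ω+1}`) such that for every `δ < ω_{ω+1}` there is `g : δ → ω` with
`f_i(n) ≠ f_j(n)` whenever `i ≠ j` are below `δ` and `n ≥ g(i), g(j)`. -/
def AlmostDisjointSequence : Prop :=
  ∃ f : (ℵ_ (Ordinal.omega0 + 1) : Cardinal.{0}).ord.ToType →
      ∀ n : ℕ, (ℵ_ (n : Ordinal) : Cardinal.{0}).ord.ToType,
    ∀ δ, ∃ g : (ℵ_ (Ordinal.omega0 + 1) : Cardinal.{0}).ord.ToType → ℕ,
      ∀ i < δ, ∀ j < δ, i ≠ j → ∀ n, g i ≤ n → g j ≤ n → f i n ≠ f j n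

open Pool.Agent.H538R3.Ditor

lemma three_of_breadth {L : Type} [SemilatticeSup L] (h : BreadthAtMostTwo L) (x y z : L) :
    x ≤ y ⊔ z ∨ y ≤ x ⊔ z ∨ z ≤ x ⊔ y := by
  classical
  obtain ⟨Y, hY, hYX, hYc, hYs⟩ := h {x, y, z} (by simp)
  have hx : x ≤ Y.sup' hY id := by
    rw [hYs]; exact Finset.le_sup' (f := id) (by simp)
  have hy : y ≤ Y.sup' hY id := by
    rw [hYs]; exact Finset.le_sup' (f := id) (by simp)
  have hz : z ≤ Y.sup' hY id := by
    rw [hYs]; exact Finset.le_sup' (f := id) (by simp)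
  by_cases h1 : x ∈ Y
  · by_cases h2 : y ∈ Y
    · by_cases h3 : z ∈ Y
      · -- two of the three are equal
        by_cases hxy : x = y
        · left; rw [hxy]; exact le_sup_left
        · by_cases hxz : x = z
          · left; rw [hxz]; exact le_sup_right
          · by_cases hyz : y = z
            · right; left; rw [hyz]; exact le_sup_right
            · exfalso
              have hsub : ({x, y, z} : Finset L) ⊆ Y := by
                intro t ht
                simp only [Finset.mem_insert, Finset.mem_singleton] at ht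
                rcases ht with rfl | rfl | rfl <;> assumption
              have hc := Finset.card_le_card hsub
              have hc3 : ({x, y, z} : Finset L).card = 3 :=
                Finset.card_eq_three.2 ⟨x, y, z, hxy, hxz, hyz, rfl⟩
              omega
      · right; right
        refine hz.trans (Finset.sup'_le hY id ?_)
        intro t ht
        have htX := hYX ht
        simp only [Finset.mem_insert, Finset.mem_singleton] at htX
        rcases htX with rfl | rfl | rfl
        · exact le_sup_left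
        · exact le_sup_right
        · exact absurd ht h3
    · right; left
      refine hy.trans (Finset.sup'_le hY id ?_)
      intro t ht
      have htX := hYX ht
      simp only [Finset.mem_insert, Finset.mem_singleton] at htX
      rcases htX with rfl | rfl | rfl
      · exact le_sup_left
      · exact absurd ht h2
      · exact le_sup_right
  · left
    refine hx.trans (Finset.sup'_le hY id ?_)
    intro t ht
    have htX := hYX ht
    simp only [Finset.mem_insert, Finset.mem_singleton] at htX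
    rcases htX with rfl | rfl | rfl
    · exact absurd ht h1
    · exact le_sup_left
    · exact le_sup_right

lemma ads_of_seq
    (h : Idx → ∀ n : ℕ, Om (n + 2))
    (hh : ∀ δ : Idx, ∃ g : Idx → ℕ,
      ∀ i < δ, ∀ j < δ, i ≠ j → ∀ n, g i ≤ n → g j ≤ n → h i n ≠ h j n) :
    AlmostDisjointSequence := by
  have hne : ∀ n : ℕ, Nonempty (Om n) := by
    intro n
    rw [← mk_ne_zero_iff, mk_ord_toType]
    exact (aleph0_pos.trans_le (aleph0_le_aleph _)).ne'
  unfold AlmostDisjointSequence
  rw [← succ_aleph]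
  refine ⟨fun i n => match n with
    | 0 => Classical.choice (hne 0)
    | 1 => Classical.choice (hne 1)
    | n + 2 => h i n, fun δ => ?_⟩
  obtain ⟨g, hg⟩ := hh δ
  refine ⟨fun i => g i + 2, fun i hi j hj hij n h1 h2 => ?_⟩
  have h1' : g i + 2 ≤ n := h1
  have h2' : g j + 2 ≤ n := h2
  obtain ⟨m, rfl⟩ : ∃ m, n = m + 2 := ⟨n - 2, by omega⟩
  exact hg i hi j hj hij m (by omega) (by omega)

/-- If Chang's conjecture `(ℵ_{ω+1}, ℵ_ω) ↠ (ℵ_{k+1}, ℵ_k)` holds for some `k`, or if `ADS`
fails at `ℵ_ω`, then every join-semilattice of breadth at most `2` and cardinality `ℵ_{ω+1}`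
has a principal ideal of cardinality at least `ℵ_ω`. -/
theorem result (H : (∃ k : ℕ, ChangConjecture k) ∨ ¬ AlmostDisjointSequence)
    (L : Type) [SemilatticeSup L] (hcard : #L = ℵ_ (Ordinal.omega0 + 1))
    (hb : BreadthAtMostTwo L) :
    ∃ a : L, ℵ_ Ordinal.omega0 ≤ #(Set.Iic a) := by
  by_contra hcon
  push Not at hcon
  obtain ⟨h, hh⟩ := exists_almost_disjoint (by rw [hcard, succ_aleph]) hcon
    (three_of_breadth hb)
  rcases H with ⟨k, hk⟩ | hads
  · have hle : ℵ_ Ordinal.omega0 ≤ #Idx := by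
      rw [mk_Idx]; exact le_succ _
    obtain ⟨U, hU⟩ := le_mk_iff_exists_set.1 hle
    obtain ⟨F, hF⟩ := no_chang h hh k U hU
    obtain ⟨X, hX1, hX2, hX3⟩ := hk Idx U F (by rw [mk_Idx, succ_aleph]) hU
    exact hF X hX1 hX2.le hX3
  · exact hads (ads_of_seq h hh)

end Pool.Agent.Results.MP_537c7a_lc.ChangNegative
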