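import Mathlib
import Pool.Agent.H538R3.Ditor5

set_option autoImplicit false

open Set Cardinal Order

namespace Pool.Agent.Results.MP_537c7a_lc.SquarePositive

/-- A join-semilattice has breadth at most `n`: every nonempty finite subset `X` has a nonempty
subset `Y` with at most `n` elements and with the same join. -/
def BreadthAtMost (n : ℕ) (L : Type) [SemilatticeSup L] : Prop :=
  ∀ (X : Finset L) (hX : X.Nonempty), ∃ (Y : Finset L) (hY : Y.Nonempty),
    Y ⊆ X ∧ Y.card ≤ n ∧ Y.sup' hY id = X.sup' hX id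

/-- There is a join-semilattice of breadth exactly `2` and of cardinality `ℵ_{ω+1}` all of whose
principal ideals have cardinality less than `ℵ_ω`. -/
def DitorSemilattice : Prop :=
  ∃ (L : Type) (_ : SemilatticeSup L), BreadthAtMost 2 L ∧ ¬ BreadthAtMost 1 L ∧
    #L = ℵ_ (Ordinal.omega0 + 1) ∧ ∀ a : L, #(Set.Iic a) < ℵ_ Ordinal.omega0

/-- There is a function `F` from the pairs `i < j < ω_{ω+1}` to `ω` which is subadditive of both
kinds and locally small. -/
def SubadditiveLocallySmall : Prop :=
  ∃ F : (ℵ_ (Ordinal.omega0 + 1) : Cardinal.{0}).ord.ToType →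
      (ℵ_ (Ordinal.omega0 + 1) : Cardinal.{0}).ord.ToType → ℕ,
    (∀ i j k, i < j → j < k → F i k ≤ max (F i j) (F j k)) ∧
    (∀ i j k, i < j → j < k → F i j ≤ max (F i k) (F j k)) ∧
    ∀ j n, #{i | i < j ∧ F i j ≤ n} < ℵ_ Ordinal.omega0

/-- Jensen's square principle at `ℵ_ω`: to every limit `b < ω_{ω+1}` there is a club `C b` in `b`
of order type at most `ω_ω` (that is, all proper initial segments of `C b` have cardinality less
than `ℵ_ω`), such that `C a = C b ∩ a` whenever `a < b` is a limit point of `C b`. -/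
def Square : Prop :=
  ∃ C : (ℵ_ (Ordinal.omega0 + 1) : Cardinal.{0}).ord.ToType →
      Set (ℵ_ (Ordinal.omega0 + 1) : Cardinal.{0}).ord.ToType,
    ∀ b, IsSuccLimit b →
      C b ⊆ Iio b ∧
      (∀ c < b, ∃ d ∈ C b, c < d) ∧
      (∀ a < b, #(C b ∩ Iio a : Set _) < ℵ_ Ordinal.omega0) ∧
      (∀ a < b, IsSuccLimit a → (∀ c < a, ∃ d ∈ C b, c < d ∧ d < a) →
        a ∈ C b ∧ C a = C b ∩ Iio a)

open Pool.Agent.H538R3.Ditor

lemma three_of_breadth {L : Type} [SemilatticeSup L] (h : BreadthAtMost 2 L) (x y z : L) :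
    x ≤ y ⊔ z ∨ y ≤ x ⊔ z ∨ z ≤ x ⊔ y := by
  classical
  obtain ⟨Y, hY, hYX, hYc, hYs⟩ := h {x, y, z} (by simp)
  have hx : x ≤ Y.sup' hY id := by
    rw [hYs]; exact Finset.le_sup' (f := id) (by simp)
  have hy : y ≤ Y.sup' hY id := by
    rw [hYs]; exact Finset.le_sup' (f := id) (by simp)
  have hz : z ≤ Y.sup' hY id := by
    rw [hYs]; exact Finset.le_sup' (f := id) (by simp)
  by_cases h1 : x ∈ Y
  · by_cases h2 : y ∈ Y
    · by_cases h3 : z ∈ Y
      · by_cases hxy : x = y
        · left; rw [hxy]; exact le_sup_left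
        · by_cases hxz : x = z
          · left; rw [hxz]; exact le_sup_right
          · by_cases hyz : y = z
            · right; left; rw [hyz]; exact le_sup_right
            · exfalso
              have hsub : ({x, y, z} : Finset L) ⊆ Y := by
                intro t ht
                simp only [Finset.mem_insert, Finset.mem_singleton] at ht
                rcases ht with rfl | rfl | rfl <;> assumption
              have hc := Finset.card_le_card hsub
              have hc3 : ({x, y, z} : Finset L).card = 3 :=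
                Finset.card_eq_three.2 ⟨x, y, z, hxy, hxz, hyz, rfl⟩
              omega
      · right; right
        refine hz.trans (Finset.sup'_le hY id ?_)
        intro t ht
        have htX := hYX ht
        simp only [Finset.mem_insert, Finset.mem_singleton] at htX
        rcases htX with rfl | rfl | rfl
        · exact le_sup_left
        · exact le_sup_right
        · exact absurd ht h3
    · right; left
      refine hy.trans (Finset.sup'_le hY id ?_)
      intro t ht
      have htX := hYX ht
      simp only [Finset.mem_insert, Finset.mem_singleton] at htX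
      rcases htX with rfl | rfl | rfl
      · exact le_sup_left
      · exact absurd ht h2
      · exact le_sup_right
  · left
    refine hx.trans (Finset.sup'_le hY id ?_)
    intro t ht
    have htX := hYX ht
    simp only [Finset.mem_insert, Finset.mem_singleton] at htX
    rcases htX with rfl | rfl | rfl
    · exact absurd ht h1
    · exact le_sup_left
    · exact le_sup_right

/-- Breadth at most one means linearly ordered. -/
lemma total_of_breadth_one {L : Type} [SemilatticeSup L] (h : BreadthAtMost 1 L) (x y : L) :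
    x ≤ y ∨ y ≤ x := by
  classical
  obtain ⟨Y, hY, hYX, hYc, hYs⟩ := h {x, y} (by simp)
  have hx : x ≤ Y.sup' hY id := by
    rw [hYs]; exact Finset.le_sup' (f := id) (by simp)
  have hy : y ≤ Y.sup' hY id := by
    rw [hYs]; exact Finset.le_sup' (f := id) (by simp)
  obtain ⟨t, ht⟩ := hY
  have hall : ∀ u ∈ Y, u = t := fun u hu => Finset.card_le_one.1 hYc u hu t ht
  have hle : Y.sup' ⟨t, ht⟩ id ≤ t := by
    refine Finset.sup'_le _ _ ?_
    intro u hu
    rw [hall u hu]
    rfl
  have htX := hYX ht
  simp only [Finset.mem_insert, Finset.mem_singleton] at htX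
  rcases htX with rfl | rfl
  · right; exact hy.trans hle
  · left; exact hx.trans hle

lemma not_breadth_one {L : Type} [SemilatticeSup L] (hL : #L = succ (ℵ_ Ordinal.omega0))
    (hs : ∀ a : L, #(Set.Iic a) < ℵ_ Ordinal.omega0) : ¬ BreadthAtMost 1 L := by
  intro h
  have htot := total_of_breadth_one h
  have h1 : ∀ n : ℕ, #{a : L | #(Set.Iic a) ≤ ℵ_ (n : Ordinal)} ≤ ℵ_ Ordinal.omega0 := by
    intro n
    have h2 : #{a : L | #(Set.Iic a) ≤ ℵ_ (n : Ordinal)} ≤ succ (ℵ_ (n : Ordinal)) := by
      refine total_small (aleph0_le_aleph _) (A := {a : L | #(Set.Iic a) ≤ ℵ_ (n : Ordinal)})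
        (fun i j => i.1 ≤ j.1) (fun i j => htot i.1 j.1) ?_
      intro j
      have h5 : #(Set.Iic j.1) ≤ ℵ_ (n : Ordinal) := j.2
      refine le_trans ?_ h5
      refine mk_le_of_injective (f := fun i => (⟨i.1.1, i.2⟩ : Set.Iic j.1)) ?_
      intro x y hxy
      have h3 := congrArg (fun z : Set.Iic j.1 => z.1) hxy
      exact Subtype.ext (Subtype.ext h3)
    rw [succ_aleph_nat] at h2
    exact h2.trans (aleph_le_aleph.2 (Ordinal.natCast_lt_omega0 _).le)
  have hU : (Set.univ : Set L) = ⋃ n : ℕ, {a : L | #(Set.Iic a) ≤ ℵ_ (n : Ordinal)} := by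
    ext a
    simp only [mem_univ, mem_iUnion, true_iff]
    obtain ⟨n, hn⟩ := exists_nat_of_lt (hs a)
    exact ⟨n, hn⟩
  have h4 : #L ≤ ℵ_ Ordinal.omega0 := by
    rw [← mk_univ, hU]
    refine mk_iUnion_le_sum_mk.trans ?_
    calc Cardinal.sum (fun n : ℕ => #{a : L | #(Set.Iic a) ≤ ℵ_ (n : Ordinal)})
        ≤ Cardinal.sum (fun _ : ℕ => ℵ_ Ordinal.omega0) := sum_le_sum _ _ h1
      _ = ℵ₀ * ℵ_ Ordinal.omega0 := by simp
      _ = ℵ_ Ordinal.omega0 := aleph0_mul_eq (aleph0_le_aleph _)
  rw [hL] at h4
  exact absurd h4 (not_le.2 (lt_succ _))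

lemma ditor_of_sub {F : Idx → Idx → ℕ} (h : SubLS F) : DitorSemilattice := by
  let I := slat h
  have hs : ∀ a : SL, #(Set.Iic a) < ℵ_ Ordinal.omega0 := fun a => slat_small h a
  exact ⟨SL, I, breadth_of_three (slat_three h), not_breadth_one mk_SL hs,
    by rw [mk_SL, succ_aleph], hs⟩

/-- `□_{ℵ_ω}` implies that there is a join-semilattice of breadth `2` and cardinality `ℵ_{ω+1}`
with all principal ideals of cardinality less than `ℵ_ω`; and (in ZFC) the existence of such a
semilattice is equivalent to the existence of a locally small function from the pairs of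
`ω_{ω+1}` to `ω` that is subadditive of both kinds. -/
theorem result : (Square → DitorSemilattice) ∧
    (DitorSemilattice ↔ SubadditiveLocallySmall) := by
  have key : SubadditiveLocallySmall ↔ ∃ F : Idx → Idx → ℕ, SubLS F := by
    unfold SubadditiveLocallySmall
    rw [← succ_aleph]
    exact ⟨fun ⟨F, h1, h2, h3⟩ => ⟨F, h1, h2, h3⟩, fun ⟨F, h⟩ => ⟨F, h.s1, h.s2, h.ls⟩⟩
  refine ⟨?_, ?_, ?_⟩
  · intro hsq
    unfold Square at hsq
    rw [← succ_aleph] at hsq
    obtain ⟨C, hC⟩ := hsq
    have hS : SqSeq C := ⟨fun b hb => (hC b hb).1, fun b hb => (hC b hb).2.1,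
      fun b hb => (hC b hb).2.2.1, fun b hb => (hC b hb).2.2.2⟩
    obtain ⟨B, hB⟩ := tower_of_eseq (eseq_of_sq hS)
    obtain ⟨F, hF⟩ := hB.toSub
    exact ditor_of_sub hF
  · rintro ⟨L, I, hb, _, hcard, hs⟩
    rw [key]
    obtain ⟨B, hB⟩ := exists_tower (L := L) (by rw [hcard, succ_aleph]) hs
      (three_of_breadth hb)
    exact hB.toSub
  · rw [key]
    rintro ⟨F, hF⟩
    exact ditor_of_sub hF

end Pool.Agent.Results.MP_537c7a_lc.SquarePositive
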